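import Mathlib

/-!
MP_78fb5d_an Q1: a negative answer. There are sets `E` in cyclic groups which do tile and
which have a nonnegative weak tiling measure (even one with `μ 0 = 1`) that is not a
convex combination of tilings.
-/

namespace Pool.Agent.Results.MP_78fb5d_an.NotConvexCombination

open Finset

/-- `μ` is a nonnegative weak tiling measure for `E`: `1_E * μ = 1`. -/
def IsWeakTiling {M : ℕ} [NeZero M] (E : Finset (ZMod M)) (μ : ZMod M → ℝ) : Prop :=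
  (∀ x, 0 ≤ μ x) ∧ ∀ x, ∑ y : ZMod M, (if x - y ∈ E then 1 else 0) * μ y = 1

/-- `E ⊕ T = Z_M`: every `x` has exactly one representation `x = e + t`. -/
def IsTiling {M : ℕ} (E T : Finset (ZMod M)) : Prop :=
  ∀ x : ZMod M, ∃! q : ZMod M × ZMod M, q.1 ∈ E ∧ q.2 ∈ T ∧ x = q.1 + q.2

/-- `μ` is a convex combination of counting measures of tiling complements of `E`. -/
def IsConvexCombination {M : ℕ} (E : Finset (ZMod M)) (μ : ZMod M → ℝ) : Prop :=
  ∃ (N : ℕ) (T : Fin N → Finset (ZMod M)) (c : Fin N → ℝ),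
    (∀ k, IsTiling E (T k)) ∧ (∀ k, 0 ≤ c k) ∧ ∑ k, c k = 1 ∧
    ∀ x, μ x = ∑ k, c k * (if x ∈ T k then 1 else 0)

/-- If `μ` is a convex combination of tilings then its support contains a tiling
complement. -/
lemma exists_tiling_of_convex {M : ℕ} (E : Finset (ZMod M)) (μ : ZMod M → ℝ)
    (h : IsConvexCombination E μ) : ∃ T, IsTiling E T ∧ ∀ x ∈ T, μ x ≠ 0 := by
  obtain ⟨N, T, c, hT, hc, hsum, hμ⟩ := h
  have hex : ∃ k, c k ≠ 0 := by
    by_contra hcon
    push Not at hcon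
    simp [hcon] at hsum
  obtain ⟨k, hk⟩ := hex
  have hkpos : 0 < c k := lt_of_le_of_ne (hc k) (Ne.symm hk)
  refine ⟨T k, hT k, fun x hx => ?_⟩
  rw [hμ x]
  have h1 : c k * (if x ∈ T k then (1 : ℝ) else 0) ≤
      ∑ k, c k * (if x ∈ T k then (1 : ℝ) else 0) := by
    refine Finset.single_le_sum (f := fun k => c k * (if x ∈ T k then (1 : ℝ) else 0))
      (fun i _ => ?_) (Finset.mem_univ k)
    exact mul_nonneg (hc i) (by split_ifs <;> norm_num)
  rw [if_pos hx, mul_one] at h1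
  linarith

/-- three sums forming an odd cycle -/
lemma no_tiling {M : ℕ} (E T S : Finset (ZMod M)) (hT : IsTiling E T) (hTS : T ⊆ S)
    (x y z a b c e₁ e₁' e₂ e₂' e₃ e₃' : ZMod M)
    (hE : e₁ ∈ E ∧ e₁' ∈ E ∧ e₂ ∈ E ∧ e₂' ∈ E ∧ e₃ ∈ E ∧ e₃' ∈ E)
    (hx : x = e₁ + a ∧ x = e₁' + b) (hy : y = e₂ + b ∧ y = e₂' + c)
    (hz : z = e₃ + c ∧ z = e₃' + a)
    (hab : a ≠ b) (hbc : b ≠ c) (hca : c ≠ a)
    (hx' : ∀ e ∈ E, ∀ t ∈ S, x = e + t → t = a ∨ t = b)
    (hy' : ∀ e ∈ E, ∀ t ∈ S, y = e + t → t = b ∨ t = c)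
    (hz' : ∀ e ∈ E, ∀ t ∈ S, z = e + t → t = c ∨ t = a) : False := by
  obtain ⟨h1, h2, h3, h4, h5, h6⟩ := hE
  have hAB : a ∈ T ∨ b ∈ T := by
    obtain ⟨⟨e, t⟩, ⟨he, ht, hxe⟩, _⟩ := hT x
    rcases hx' e he t (hTS ht) hxe with h | h
    · left; rw [← h]; exact ht
    · right; rw [← h]; exact ht
  have hBC : b ∈ T ∨ c ∈ T := by
    obtain ⟨⟨e, t⟩, ⟨he, ht, hxe⟩, _⟩ := hT y
    rcases hy' e he t (hTS ht) hxe with h | h
    · left; rw [← h]; exact ht
    · right; rw [← h]; exact ht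
  have hCA : c ∈ T ∨ a ∈ T := by
    obtain ⟨⟨e, t⟩, ⟨he, ht, hxe⟩, _⟩ := hT z
    rcases hz' e he t (hTS ht) hxe with h | h
    · left; rw [← h]; exact ht
    · right; rw [← h]; exact ht
  have nAB : ¬ (a ∈ T ∧ b ∈ T) := by
    rintro ⟨ha, hb⟩
    have := (hT x).unique (y₁ := (e₁, a)) (y₂ := (e₁', b)) ⟨h1, ha, hx.1⟩ ⟨h2, hb, hx.2⟩
    exact hab (Prod.ext_iff.1 this).2
  have nBC : ¬ (b ∈ T ∧ c ∈ T) := by
    rintro ⟨ha, hb⟩
    have := (hT y).unique (y₁ := (e₂, b)) (y₂ := (e₂', c)) ⟨h3, ha, hy.1⟩ ⟨h4, hb, hy.2⟩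
    exact hbc (Prod.ext_iff.1 this).2
  have nCA : ¬ (c ∈ T ∧ a ∈ T) := by
    rintro ⟨ha, hb⟩
    have := (hT z).unique (y₁ := (e₃, c)) (y₂ := (e₃', a)) ⟨h5, ha, hz.1⟩ ⟨h6, hb, hz.2⟩
    exact hca (Prod.ext_iff.1 this).2
  tauto

lemma isTiling_iff {M : ℕ} [NeZero M] (E T : Finset (ZMod M)) :
    IsTiling E T ↔ ∀ x : ZMod M, (Finset.univ.filter
      (fun q : ZMod M × ZMod M => q.1 ∈ E ∧ q.2 ∈ T ∧ x = q.1 + q.2)).card = 1 := by
  unfold IsTiling
  exact forall_congr' fun x => Fintype.existsUnique_iff_card_one _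

lemma weak_of_nat {M : ℕ} [NeZero M] (E : Finset (ZMod M)) (ν : ZMod M → ℕ)
    (h : ∀ x : ZMod M, ∑ y : ZMod M, (if x - y ∈ E then 1 else 0) * ν y = 2) :
    IsWeakTiling E (fun x => (ν x : ℝ) / 2) := by
  refine ⟨fun x => by positivity, fun x => ?_⟩
  have h1 : ((∑ y : ZMod M, (if x - y ∈ E then 1 else 0) * ν y : ℕ) : ℝ) = 2 := by
    rw [h x]; norm_num
  push_cast at h1
  have h2 : ∑ y : ZMod M, (if x - y ∈ E then (1 : ℝ) else 0) * ((ν y : ℝ) / 2) =
      (∑ y : ZMod M, (if x - y ∈ E then (1 : ℝ) else 0) * (ν y : ℝ)) / 2 := by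
    rw [Finset.sum_div]
    refine Finset.sum_congr rfl fun y _ => ?_
    ring
  rw [h2, h1]
  norm_num

/-! ### The group `Z_12` -/

def E12 : Finset (ZMod 12) := {0, 2, 3, 5}
def S12 : Finset (ZMod 12) := {1, 2, 3, 7, 8, 9}
def ν12 (x : ZMod 12) : ℕ := if x ∈ S12 then 1 else 0

lemma tiling12 : IsTiling E12 {0, 4, 8} := by
  rw [isTiling_iff]
  decide +kernel

lemma weak12 : IsWeakTiling E12 (fun x => (ν12 x : ℝ) / 2) := by
  apply weak_of_nat
  decide +kernel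

lemma notConvex12 : ¬ IsConvexCombination E12 (fun x => (ν12 x : ℝ) / 2) := by
  intro h
  obtain ⟨T, hT, hTμ⟩ := exists_tiling_of_convex _ _ h
  have hTS : T ⊆ S12 := by
    intro x hx
    by_contra hxS
    apply hTμ x hx
    simp [ν12, hxS]
  exact no_tiling E12 T S12 hT hTS 3 5 4 1 3 2 2 0 2 3 2 3 (by decide) (by decide)
    (by decide) (by decide) (by decide) (by decide) (by decide) (by decide) (by decide)
    (by decide)

/-! ### The group `Z_24`, with `μ 0 = 1` -/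

def E24 : Finset (ZMod 24) := {0, 4, 6, 10}
def S24 : Finset (ZMod 24) := {0, 8, 16, 3, 5, 7, 15, 17, 19}
def ν24 (x : ZMod 24) : ℕ :=
  if x ∈ ({0, 8, 16} : Finset (ZMod 24)) then 2 else if x ∈ S24 then 1 else 0

lemma tiling24 : IsTiling E24 {0, 8, 16, 1, 9, 17} := by
  rw [isTiling_iff]
  decide +kernel

lemma weak24 : IsWeakTiling E24 (fun x => (ν24 x : ℝ) / 2) := by
  apply weak_of_nat
  decide +kernel

lemma notConvex24 : ¬ IsConvexCombination E24 (fun x => (ν24 x : ℝ) / 2) := by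
  intro h
  obtain ⟨T, hT, hTμ⟩ := exists_tiling_of_convex _ _ h
  have hTS : T ⊆ S24 := by
    intro x hx
    by_contra hxS
    apply hTμ x hx
    have h1 : x ∉ ({0, 8, 16} : Finset (ZMod 24)) := by
      intro h2
      have h3 : ∀ y : ZMod 24, y ∈ ({0, 8, 16} : Finset (ZMod 24)) → y ∈ S24 := by decide
      exact hxS (h3 x h2)
    simp [ν24, hxS, h1]
  exact no_tiling E24 T S24 hT hTS 7 11 9 3 7 5 4 0 4 6 4 6 (by decide) (by decide)
    (by decide) (by decide) (by decide) (by decide) (by decide) (by decide) (by decide)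
    (by decide)

/-- **Negative answer to Q1 of MP_78fb5d_an**, in three forms.
(1) In `Z_12` there is a set `E` that tiles and has a nonnegative weak tiling measure which
is not a convex combination of tilings.
(2) In `Z_24` there is such an example in which moreover `μ 0 = 1` (so that `μ - δ_0` is a
weak tiling of the complement of `E`).
(3) Hence the universal statement of the question is false. -/
theorem result :
    (∃ (E : Finset (ZMod 12)) (μ : ZMod 12 → ℝ), (∃ T, IsTiling E T) ∧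
      IsWeakTiling E μ ∧ ¬ IsConvexCombination E μ) ∧
    (∃ (E : Finset (ZMod 24)) (μ : ZMod 24 → ℝ), (∃ T, IsTiling E T) ∧ 0 ∈ E ∧ μ 0 = 1 ∧
      IsWeakTiling E μ ∧ ¬ IsConvexCombination E μ) ∧
    ¬ ∀ (M : ℕ) [NeZero M] (E : Finset (ZMod M)) (μ : ZMod M → ℝ),
      IsWeakTiling E μ → IsConvexCombination E μ := by
  refine ⟨⟨E12, _, ⟨_, tiling12⟩, weak12, notConvex12⟩,
    ⟨E24, _, ⟨_, tiling24⟩, by decide, ?_, weak24, notConvex24⟩, fun H => ?_⟩
  · have : ν24 0 = 2 := by decide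
    simp [this]
  · exact notConvex12 (H 12 E12 _ weak12)

end Pool.Agent.Results.MP_78fb5d_an.NotConvexCombination
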